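import Mathlib.Topology.Algebra.InfiniteSum.Real
import Mathlib.Topology.Algebra.InfiniteSum.ENNReal
import Mathlib.Analysis.Normed.Group.InfiniteSum
import Mathlib.Analysis.SpecificLimits.Normed
import Mathlib.GroupTheory.GroupAction.SubMulAction.Combination
import Mathlib.GroupTheory.FreeGroup.Reduce
import Mathlib.Logic.Equiv.Fintype

/-!
Liouville actions: definitions.
-/

set_option autoImplicit false

open scoped Pointwise

namespace Pool.Agent.Q92.HT

/-- `μ` is a probability measure on the discrete group `G` whose support generates `G` as a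
semigroup. -/
structure IsNonDegenerate {G : Type*} [Group G] (μ : G → ℝ) : Prop where
  nonneg : ∀ g, 0 ≤ μ g
  total : HasSum μ 1
  generates : Subsemigroup.closure {g | 0 < μ g} = ⊤

/-- The transition probability `p_μ(y,z)`, the sum of `μ(g)` over the `g` with `g y = z`. -/
noncomputable def transition {G : Type*} [Group G] {Y : Type*} [MulAction G Y] (μ : G → ℝ)
    (y z : Y) : ℝ :=
  ∑' g : {g : G // g • y = z}, μ g

/-- `f` is `μ`-harmonic. -/
def IsHarmonic {G : Type*} [Group G] {Y : Type*} [MulAction G Y] (μ : G → ℝ) (f : Y → ℝ) : Prop :=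
  ∀ y, f y = ∑' z, f z * transition μ y z

/-- Every bounded `μ`-harmonic function on `Y` is constant. -/
def IsLiouvilleFor {G : Type*} [Group G] (Y : Type*) [MulAction G Y] (μ : G → ℝ) : Prop :=
  ∀ f : Y → ℝ, (∃ C : ℝ, ∀ y, |f y| ≤ C) → IsHarmonic μ f → ∀ y z, f y = f z

/-- There is a finitely additive left-invariant probability measure on all subsets of `G`. -/
def IsAmenable (G : Type*) [Group G] : Prop :=
  ∃ m : Set G → ℝ, (∀ A, 0 ≤ m A) ∧ m Set.univ = 1 ∧
    (∀ A B, Disjoint A B → m (A ∪ B) = m A + m B) ∧
    ∀ (g : G) (A : Set G), m ((fun x => g * x) '' A) = m A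

/-- Every injection of a finite subset of `X` into `X` is the restriction of the action of an
element of `G`. -/
def IsHighlyTransitive (G : Type*) [Group G] (X : Type*) [MulAction G X] : Prop :=
  ∀ (W : Finset X) (j : W ↪ X), ∃ g : G, ∀ x : W, g • (x : X) = j x

end Pool.Agent.Q92.HT
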