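import Pool.Agent.Q92.HT.NonAm
import Mathlib.SetTheory.Cardinal.Free

/-!
The group of the permutations of the free group of rank two which agree with a left translation
outside a finite set.
-/

set_option autoImplicit false

namespace Pool.Agent.Q92.HT

/-- The permutations of `F2` which agree with a left translation outside a finite set. -/
def AG : Subgroup (Equiv.Perm F2) where
  carrier := {p | ∃ w : F2, {x | p x ≠ w * x}.Finite}
  one_mem' := ⟨1, by simp⟩
  mul_mem' := by
    rintro p q ⟨w, hw⟩ ⟨v, hv⟩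
    refine ⟨w * v, (hv.union (hw.preimage q.injective.injOn)).subset ?_⟩
    intro x hx
    by_contra hcon
    simp only [Set.mem_union, Set.mem_preimage, Set.mem_ofPred_eq, not_or, not_not] at hcon
    apply hx
    show p (q x) = _
    rw [hcon.2, hcon.1, mul_assoc]
  inv_mem' := by
    rintro p ⟨w, hw⟩
    refine ⟨w⁻¹, (hw.image p).subset ?_⟩
    intro x hx
    refine ⟨p⁻¹ x, ?_, p.apply_symm_apply x⟩
    intro h
    apply hx
    have h2 : p (p⁻¹ x) = x := p.apply_symm_apply x
    rw [h2] at h
    rw [h, inv_mul_cancel_left, ← h]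

lemma infinite_F2 : Infinite F2 := by
  infer_instance

lemma tr_unique {p : Equiv.Perm F2} {v w : F2} (hv : {x | p x ≠ v * x}.Finite)
    (hw : {x | p x ≠ w * x}.Finite) : v = w := by
  have := infinite_F2
  obtain ⟨x, hx⟩ := (hv.union hw).exists_notMem
  simp only [Set.mem_union, Set.mem_ofPred_eq, not_or, not_not] at hx
  exact mul_right_cancel (hx.1.symm.trans hx.2)

/-- the translation part -/
noncomputable def tr (p : AG) : F2 := p.2.choose

lemma tr_spec (p : AG) : {x | (p : Equiv.Perm F2) x ≠ tr p * x}.Finite := p.2.choose_spec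

lemma tr_eq {p : AG} {w : F2} (h : {x | (p : Equiv.Perm F2) x ≠ w * x}.Finite) : tr p = w :=
  tr_unique (tr_spec p) h

/-- the translation part as a homomorphism -/
noncomputable def trHom : AG →* F2 where
  toFun := tr
  map_one' := tr_eq (by simp)
  map_mul' := by
    intro p q
    apply tr_eq
    refine ((tr_spec q).union ((tr_spec p).preimage (q : Equiv.Perm F2).injective.injOn)).subset ?_
    intro x hx
    by_contra hcon
    simp only [Set.mem_union, Set.mem_preimage, Set.mem_ofPred_eq, not_or, not_not] at hcon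
    apply hx
    show (p : Equiv.Perm F2) ((q : Equiv.Perm F2) x) = _
    rw [hcon.2, hcon.1, mul_assoc]

lemma trHom_surjective : Function.Surjective trHom := by
  intro w
  refine ⟨⟨Equiv.mulLeft w, w, by simp⟩, tr_eq (by simp)⟩

lemma not_amenable_AG : ¬ IsAmenable AG := fun h =>
  not_amenable_F2 (isAmenable_of_surjective trHom trHom_surjective h)

lemma countable_F2 : Countable F2 := by
  have : Function.Surjective (FreeGroup.mk : List (Fin 2 × Bool) → F2) := fun x =>
    ⟨x.toWord, FreeGroup.mk_toWord⟩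
  exact this.countable

lemma countable_AG : Countable AG := by
  have := countable_F2
  classical
  let Φ : AG → F2 × Finset (F2 × F2) := fun p =>
    (tr p, (tr_spec p).toFinset.image fun x => (x, (p : Equiv.Perm F2) x))
  apply Function.Injective.countable (f := Φ)
  intro p q hpq
  have h1 : tr p = tr q := congrArg Prod.fst hpq
  have h2 : ∀ x y : F2, ((p : Equiv.Perm F2) x ≠ tr p * x ∧ (p : Equiv.Perm F2) x = y) ↔
      ((q : Equiv.Perm F2) x ≠ tr q * x ∧ (q : Equiv.Perm F2) x = y) := by
    intro x y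
    have h3 := congrArg Prod.snd hpq
    have h4 := Finset.ext_iff.1 h3 (x, y)
    simpa [Φ] using h4
  apply Subtype.ext
  apply Equiv.ext
  intro x
  by_cases hp : (p : Equiv.Perm F2) x = tr p * x
  · by_cases hq : (q : Equiv.Perm F2) x = tr q * x
    · rw [hp, hq, h1]
    · exact ((h2 x _).2 ⟨hq, rfl⟩).2
  · exact ((h2 x _).1 ⟨hp, rfl⟩).2.symm

lemma faithful_AG : FaithfulSMul AG F2 := by
  infer_instance

lemma highlyTransitive_AG : IsHighlyTransitive AG F2 := by
  classical
  intro W j
  let U : Finset F2 := W ∪ W.attach.image j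
  have hWU : ∀ x ∈ W, x ∈ U := fun x hx => Finset.mem_union_left _ hx
  have hjU : ∀ x : W, j x ∈ U := fun x =>
    Finset.mem_union_right _ (Finset.mem_image_of_mem _ (Finset.mem_attach _ _))
  obtain ⟨ε, hε⟩ : ∃ ε : {x : U // (x : F2) ∈ W} ≃ {x : U // (x : F2) ∈ W.attach.image j},
      ∀ x : {x : U // (x : F2) ∈ W}, ((ε x : U) : F2) = j ⟨x.1.1, x.2⟩ := by
    let φ : {x : U // (x : F2) ∈ W} → {x : U // (x : F2) ∈ W.attach.image j} := fun x =>
      ⟨⟨j ⟨x.1.1, x.2⟩, hjU _⟩, Finset.mem_image_of_mem _ (Finset.mem_attach _ _)⟩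
    have hφ : Function.Bijective φ := by
      constructor
      · intro x y hxy
        have h1 : j ⟨x.1.1, x.2⟩ = j ⟨y.1.1, y.2⟩ :=
          congrArg (fun z : {x : U // (x : F2) ∈ W.attach.image j} => ((z : U) : F2)) hxy
        have h2 := congrArg Subtype.val (j.injective h1)
        exact Subtype.ext (Subtype.ext h2)
      · rintro ⟨⟨y, hyU⟩, hy⟩
        obtain ⟨x, _, hxy⟩ := Finset.mem_image.1 hy
        exact ⟨⟨⟨x, hWU x x.2⟩, x.2⟩, Subtype.ext (Subtype.ext hxy)⟩
    exact ⟨Equiv.ofBijective φ hφ, fun x => rfl⟩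
  let τ : Equiv.Perm U := ε.extendSubtype
  let p : Equiv.Perm F2 := Equiv.Perm.ofSubtype τ
  have hp : {x | p x ≠ 1 * x}.Finite := by
    refine U.finite_toSet.subset ?_
    intro x hx
    by_contra hxU
    apply hx
    rw [one_mul]
    exact Equiv.Perm.ofSubtype_apply_of_not_mem τ hxU
  refine ⟨⟨p, 1, hp⟩, fun x => ?_⟩
  show p (x : F2) = j x
  have h1 : p (x : F2) = τ ⟨x, hWU x x.2⟩ := Equiv.Perm.ofSubtype_apply_of_mem τ (hWU x x.2)
  rw [h1]
  have h2 : τ ⟨x, hWU x x.2⟩ = ε ⟨⟨x, hWU x x.2⟩, x.2⟩ :=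
    Equiv.extendSubtype_apply_of_mem ε _ x.2
  rw [h2, hε]

end Pool.Agent.Q92.HT
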