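import Pool.Agent.Q92.HT.Unif
import Mathlib.Analysis.SpecificLimits.Basic
import Mathlib.Analysis.Complex.Exponential

/-!
Highly transitive actions of countable groups are Liouville on finite sets.
-/

set_option autoImplicit false

open scoped Pointwise Topology
open Finset Filter

namespace Pool.Agent.Q92.HT

/-- the weights -/
noncomputable def cc (i : ℕ) : ℝ := 1 / ((i : ℝ) + 1) - 1 / ((i : ℝ) + 2)

lemma cc_pos (i : ℕ) : 0 < cc i := by
  unfold cc
  have : (0:ℝ) < (i : ℝ) + 1 := by positivity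
  rw [sub_pos]
  exact one_div_lt_one_div_of_lt this (by linarith)

lemma sum_cc (m : ℕ) : ∑ i ∈ range m, cc i = 1 - 1 / ((m : ℝ) + 1) := by
  induction m with
  | zero => simp
  | succ m ih =>
    rw [sum_range_succ, ih]
    unfold cc
    push_cast
    ring

lemma hasSum_cc : HasSum cc 1 := by
  rw [hasSum_iff_tendsto_nat_of_nonneg (fun i => (cc_pos i).le)]
  simp_rw [sum_cc]
  have := tendsto_one_div_add_atTop_nhds_zero_nat (𝕜 := ℝ)
  simpa using this.const_sub 1

section Transition

variable {G : Type*} [Group G] {Y : Type*} [MulAction G Y]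

/-- averaging against the transition probabilities -/
lemma tsum_transition {μ : G → ℝ} (hμ : IsNonDegenerate μ) {f : Y → ℝ} {C : ℝ}
    (hf : ∀ y, |f y| ≤ C) (y : Y) :
    ∑' z, f z * transition μ y z = ∑' g, μ g * f (g • y) := by
  have hsum : Summable (fun g => μ g * f (g • y)) := by
    refine Summable.of_norm_bounded (g := fun g => μ g * C) (hμ.total.summable.mul_right C) ?_
    intro g
    rw [Real.norm_eq_abs, abs_mul, abs_of_nonneg (hμ.nonneg g)]
    exact mul_le_mul_of_nonneg_left (hf _) (hμ.nonneg g)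
  have h1 := (hsum.hasSum.tsum_fiberwise (fun g => g • y)).tsum_eq
  rw [← h1]
  apply tsum_congr
  intro z
  unfold transition
  rw [← tsum_mul_left]
  apply tsum_congr
  intro g
  have : ((g : G) • y) = z := g.2
  rw [this, mul_comm]

end Transition

section Main

variable {G : Type*} [Group G] {X : Type*} [DecidableEq X] [MulAction G X]

lemma exists_rec [DecidableEq G] (S : Finset X → G → Finset G) (x : ℕ → X) (e : ℕ → G) :
    ∃ (T : ℕ → Finset G) (V : ℕ → Finset X), (1 : G) ∈ T 0 ∧
      (∀ m, V (m + 1) = T m ^ ((m + 1) ^ 2) • insert (x m) (V m)) ∧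
      (∀ m, T (m + 1) = T m ∪ S (V (m + 1)) (e m)) := by
  let st : ℕ → Finset G × Finset X := fun m => Nat.rec (({1} : Finset G), (∅ : Finset X))
    (fun m p => (p.1 ∪ S (p.1 ^ ((m + 1) ^ 2) • insert (x m) p.2) (e m),
      p.1 ^ ((m + 1) ^ 2) • insert (x m) p.2)) m
  exact ⟨fun m => (st m).1, fun m => (st m).2, mem_singleton_self _, fun m => rfl, fun m => rfl⟩

/-- The measure `Σ c_i ν_i`. -/
lemma exists_mu (ν : ℕ → G → ℝ) (Si : ℕ → Finset G) (hν0 : ∀ i g, 0 ≤ ν i g)
    (hνS : ∀ i g, g ∉ Si i → ν i g = 0) (hw1 : ∀ i, ∑ g ∈ Si i, ν i g = 1)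
    (hpos : ∀ g, ∃ i, 0 < ν i g) :
    ∃ μ : G → ℝ, (∀ g, 0 < μ g) ∧ HasSum μ 1 ∧
      ∀ (F : G → ℝ) (C : ℝ), (∀ g, |F g| ≤ C) →
      ∑' g, μ g * F g = ∑' i, cc i * ∑ g ∈ Si i, ν i g * F g := by
  have hν1 : ∀ i, HasSum (ν i) 1 := by
    intro i
    have h : HasSum (ν i) (∑ g ∈ Si i, ν i g) :=
      hasSum_sum_of_ne_finset_zero (fun g hg => hνS i g hg)
    rwa [hw1 i] at h
  -- double sums
  have hdouble : ∀ (F : G → ℝ) (C : ℝ), (∀ g, |F g| ≤ C) →
      Summable (fun p : ℕ × G => cc p.1 * ν p.1 p.2 * F p.2) := by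
    intro F C hF
    have h2 : (fun i => ∑' g, cc i * ν i g) = cc := by
      funext i
      rw [tsum_mul_left, (hν1 i).tsum_eq, mul_one]
    have h3 : ∀ i, Summable fun g => cc i * ν i g := fun i => (hν1 i).summable.mul_left (cc i)
    have h4 : Summable (fun i => ∑' g, cc i * ν i g) := by
      rw [h2]
      exact hasSum_cc.summable
    have h0 : (0 : ℕ × G → ℝ) ≤ fun p : ℕ × G => cc p.1 * ν p.1 p.2 :=
      fun p => mul_nonneg (cc_pos _).le (hν0 _ _)
    have h1 : Summable (fun p : ℕ × G => cc p.1 * ν p.1 p.2) :=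
      (summable_prod_of_nonneg h0).2 ⟨h3, h4⟩
    refine Summable.of_norm_bounded (g := fun p : ℕ × G => cc p.1 * ν p.1 p.2 * C)
      (h1.mul_right C) ?_
    rintro ⟨i, g⟩
    rw [Real.norm_eq_abs, abs_mul, abs_of_nonneg (mul_nonneg (cc_pos _).le (hν0 _ _))]
    exact mul_le_mul_of_nonneg_left (hF _) (mul_nonneg (cc_pos _).le (hν0 _ _))
  have hdouble' : ∀ (F : G → ℝ) (C : ℝ), (∀ g, |F g| ≤ C) →
      Summable (fun p : G × ℕ => cc p.2 * ν p.2 p.1 * F p.1) := fun F C hF =>
    (Equiv.prodComm G ℕ).summable_iff.2 (hdouble F C hF)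
  have hμF : ∀ (F : G → ℝ) (C : ℝ), (∀ g, |F g| ≤ C) →
      HasSum (fun g => (∑' i, cc i * ν i g) * F g) (∑' i, cc i * ∑ g ∈ Si i, ν i g * F g) := by
    intro F C hF
    have h1 := hdouble F C hF
    have h2 := hdouble' F C hF
    have h3 : (fun g => ∑' i, cc i * ν i g * F g) = fun g => (∑' i, cc i * ν i g) * F g := by
      funext g
      rw [tsum_mul_right]
    have h4 : (∑' g, ∑' i, cc i * ν i g * F g) = ∑' i, ∑' g, cc i * ν i g * F g :=
      (Summable.tsum_comm (f := fun g i => cc i * ν i g * F g) h2).symm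
    have h5 : (fun i => ∑' g, cc i * ν i g * F g) = fun i => cc i * ∑ g ∈ Si i, ν i g * F g := by
      funext i
      rw [tsum_eq_sum (s := Si i)]
      · rw [Finset.mul_sum]
        exact Finset.sum_congr rfl fun g _ => by ring
      · intro g hg
        rw [hνS i g hg]; ring
    have h6 : Summable (fun g => ∑' i, cc i * ν i g * F g) := h2.prod
    have h7 := h6.hasSum
    rw [h4, h3, h5] at h7
    exact h7
  refine ⟨fun g => ∑' i, cc i * ν i g, ?_, ?_, fun F C hF => (hμF F C hF).tsum_eq⟩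
  · intro g
    obtain ⟨i, hi⟩ := hpos g
    have h1 : Summable (fun j => cc j * ν j g) := by
      have h3 := hdouble' (fun _ => 1) 1 (fun _ => by simp)
      have h4 := h3.prod_factor g
      simpa using h4
    exact h1.tsum_pos (fun j => mul_nonneg (cc_pos _).le (hν0 _ _)) i
      (mul_pos (cc_pos _) hi)
  · have h1 := hμF (fun _ => 1) 1 (fun _ => by simp)
    have h2 : (∑' i, cc i * ∑ g ∈ Si i, ν i g * 1) = 1 := by
      have : (fun i => cc i * ∑ g ∈ Si i, ν i g * 1) = cc := by
        funext i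
        simp only [mul_one]
        rw [hw1 i, mul_one]
      rw [this]
      exact hasSum_cc.tsum_eq
    rw [h2] at h1
    simpa using h1

/-- The theorem on highly transitive actions. -/
theorem liouville_of_highlyTransitive [Countable G] [Countable X] [Nonempty X]
    (hT : IsHighlyTransitive G X) :
    ∃ μ : G → ℝ, IsNonDegenerate μ ∧ (∀ g, 0 < μ g) ∧
      ∀ n : ℕ, IsLiouvilleFor (Set.powersetCard X n) μ := by
  classical
  obtain ⟨x, hx⟩ := exists_surjective_nat X
  obtain ⟨e, he⟩ := exists_surjective_nat G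
  choose S w hw0 hwS hw1 hwg hwf using exists_unif hT
  -- the recursion
  obtain ⟨T, V, hT0, hV, hT'⟩ := exists_rec S x e
  have hT1 : ∀ m, (1 : G) ∈ T m := by
    intro m
    induction m with
    | zero => exact hT0
    | succ m ih => rw [hT']; exact mem_union_left _ ih
  have hTmono : Monotone T := monotone_nat_of_le_succ fun m => by
    rw [hT']; exact subset_union_left
  have hpow1 : ∀ m k, (1 : G) ∈ T m ^ k := by
    intro m k
    exact Finset.one_mem_pow (hT1 m)
  have hsubV : ∀ m, insert (x m) (V m) ⊆ V (m + 1) := by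
    intro m z hz
    rw [hV]
    have := smul_mem_smul (hpow1 m ((m + 1) ^ 2)) hz
    rwa [one_smul] at this
  have hVmono : Monotone V := monotone_nat_of_le_succ fun m =>
    (subset_insert _ _).trans (hsubV m)
  have hxV : ∀ m, x m ∈ V (m + 1) := fun m => hsubV m (mem_insert_self _ _)
  have hST : ∀ i m, i < m → S (V (i + 1)) (e i) ⊆ T m := by
    intro i m him
    have h1 : S (V (i + 1)) (e i) ⊆ T (i + 1) := by rw [hT']; exact subset_union_right
    exact h1.trans (hTmono him)
  -- the measures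
  obtain ⟨ν, hν⟩ : ∃ ν : ℕ → G → ℝ, ν = fun i => w (V (i + 1)) (e i) := ⟨_, rfl⟩
  obtain ⟨Si, hSi⟩ : ∃ Si : ℕ → Finset G, Si = fun i => S (V (i + 1)) (e i) := ⟨_, rfl⟩
  have hSi' : ∀ i, Si i = S (V (i + 1)) (e i) := fun i => by rw [hSi]
  have hν0 : ∀ i g, 0 ≤ ν i g := fun i g => by rw [hν]; exact hw0 _ _ _
  have hνS : ∀ i g, g ∉ Si i → ν i g = 0 := fun i g hg => by
    rw [hν]; rw [hSi' i] at hg; exact hwS _ _ _ hg
  have hw1' : ∀ i, ∑ g ∈ Si i, ν i g = 1 := fun i => by rw [hν, hSi]; exact hw1 _ _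
  have hpos : ∀ g, ∃ i, 0 < ν i g := by
    intro g
    obtain ⟨i, rfl⟩ := he g
    exact ⟨i, by rw [hν]; exact hwg _ _⟩
  have hwf' : ∀ (i n : ℕ) (f : Set.powersetCard X n → ℝ) (E E' : Set.powersetCard X n),
      (E : Finset X) ⊆ V (i + 1) → (E' : Finset X) ⊆ V (i + 1) →
      ∑ h ∈ Si i, ν i h * f (h • E) = ∑ h ∈ Si i, ν i h * f (h • E') := by
    intro i n f E E' hE hE'
    rw [hν, hSi]
    exact hwf _ _ n f E E' hE hE'
  obtain ⟨μ, hμpos, hμ1, hμF⟩ := exists_mu ν Si hν0 hνS hw1' hpos
  have hnd : IsNonDegenerate μ := by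
    refine ⟨fun g => (hμpos g).le, hμ1, ?_⟩
    have : {g | 0 < μ g} = Set.univ := Set.eq_univ_of_forall hμpos
    rw [this, Subsemigroup.closure_univ]
  refine ⟨μ, hnd, hμpos, ?_⟩
  intro n f hfb hf
  obtain ⟨C, hC⟩ := hfb
  -- the harmonic equation
  have hharm : ∀ y, HasSum (fun i => cc i * ∑ g ∈ Si i, ν i g * f (g • y)) (f y) := by
    intro y
    have h1 := hμF (fun g => f (g • y)) C (fun g => hC _)
    have h2 := hf y
    rw [tsum_transition hnd hC, h1] at h2
    rw [h2]
    apply Summable.hasSum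
    refine Summable.of_norm_bounded (g := fun i => cc i * C) (hasSum_cc.summable.mul_right C) ?_
    intro i
    rw [Real.norm_eq_abs, abs_mul, abs_of_nonneg (cc_pos i).le]
    refine mul_le_mul_of_nonneg_left ?_ (cc_pos i).le
    calc |∑ g ∈ Si i, ν i g * f (g • y)| ≤ ∑ g ∈ Si i, |ν i g * f (g • y)| :=
          Finset.abs_sum_le_sum_abs _ _
      _ ≤ ∑ g ∈ Si i, ν i g * C := by
          apply Finset.sum_le_sum
          intro g _
          rw [abs_mul, abs_of_nonneg (hν0 i g)]
          exact mul_le_mul_of_nonneg_left (hC _) (hν0 i g)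
      _ = C := by
          rw [← Finset.sum_mul, hw1' i, one_mul]
  -- the key estimate
  have hkey : ∀ (m k : ℕ) (y z : Set.powersetCard X n),
      (∀ h ∈ T m ^ k, ((h • y : Set.powersetCard X n) : Finset X) ⊆ V (m + 1) ∧
        ((h • z : Set.powersetCard X n) : Finset X) ⊆ V (m + 1)) →
      |f y - f z| ≤ (1 - 1 / ((m : ℝ) + 1)) ^ k * (2 * C) := by
    intro m k
    induction k with
    | zero =>
      intro y z _
      rw [pow_zero, one_mul]
      have h1 := hC y
      have h2 := hC z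
      rw [abs_le] at h1 h2 ⊢
      constructor <;> linarith [h1.1, h1.2, h2.1, h2.2]
    | succ k ih =>
      intro y z hyz
      have hy := (hyz 1 (hpow1 m (k + 1))).1
      have hz := (hyz 1 (hpow1 m (k + 1))).2
      rw [one_smul] at hy hz
      have hd := (hharm y).sub (hharm z)
      have hzero : ∀ i ∉ range m, cc i * ∑ g ∈ Si i, ν i g * f (g • y)
          - cc i * ∑ g ∈ Si i, ν i g * f (g • z) = 0 := by
        intro i hi
        have him : m ≤ i := by simpa using hi
        have hVV : V (m + 1) ⊆ V (i + 1) := hVmono (by omega)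
        rw [hwf' i n f y z (hy.trans hVV) (hz.trans hVV), sub_self]
      have hd2 := HasSum.unique (hasSum_sum_of_ne_finset_zero hzero) hd
      rw [← hd2]
      have hstep : ∀ i ∈ range m, |cc i * ∑ g ∈ Si i, ν i g * f (g • y)
          - cc i * ∑ g ∈ Si i, ν i g * f (g • z)| ≤
          cc i * ((1 - 1 / ((m : ℝ) + 1)) ^ k * (2 * C)) := by
        intro i hi
        have him : i < m := mem_range.1 hi
        rw [← mul_sub, abs_mul, abs_of_nonneg (cc_pos i).le, ← Finset.sum_sub_distrib]
        refine mul_le_mul_of_nonneg_left ?_ (cc_pos i).le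
        calc |∑ g ∈ Si i, (ν i g * f (g • y) - ν i g * f (g • z))|
            ≤ ∑ g ∈ Si i, |ν i g * f (g • y) - ν i g * f (g • z)| :=
              Finset.abs_sum_le_sum_abs _ _
          _ ≤ ∑ g ∈ Si i, ν i g * ((1 - 1 / ((m : ℝ) + 1)) ^ k * (2 * C)) := by
              apply Finset.sum_le_sum
              intro g hg
              rw [← mul_sub, abs_mul, abs_of_nonneg (hν0 i g)]
              refine mul_le_mul_of_nonneg_left ?_ (hν0 i g)
              apply ih
              intro h hh
              have hgT : g ∈ T m := hST i m him (by rwa [hSi' i] at hg)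
              have hhg : h * g ∈ T m ^ (k + 1) := by
                rw [pow_succ]
                exact mul_mem_mul hh hgT
              have := hyz (h * g) hhg
              rwa [mul_smul, mul_smul] at this
          _ = (1 - 1 / ((m : ℝ) + 1)) ^ k * (2 * C) := by
              rw [← Finset.sum_mul, hw1' i, one_mul]
      calc |∑ i ∈ range m, (cc i * ∑ g ∈ Si i, ν i g * f (g • y)
          - cc i * ∑ g ∈ Si i, ν i g * f (g • z))|
          ≤ ∑ i ∈ range m, |cc i * ∑ g ∈ Si i, ν i g * f (g • y)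
          - cc i * ∑ g ∈ Si i, ν i g * f (g • z)| := Finset.abs_sum_le_sum_abs _ _
        _ ≤ ∑ i ∈ range m, cc i * ((1 - 1 / ((m : ℝ) + 1)) ^ k * (2 * C)) :=
            Finset.sum_le_sum hstep
        _ = (1 - 1 / ((m : ℝ) + 1)) ^ (k + 1) * (2 * C) := by
            rw [← Finset.sum_mul, sum_cc]; ring
  -- conclusion
  intro y z
  have hC0 : 0 ≤ C := (abs_nonneg _).trans (hC y)
  have hfin : ∀ E : Finset X, ∀ᶠ m in atTop, E ⊆ V m := by
    intro E
    induction E using Finset.induction_on with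
    | empty => exact Eventually.of_forall fun m => Finset.empty_subset _
    | insert a E _ ih =>
      obtain ⟨i, rfl⟩ := hx a
      filter_upwards [ih, eventually_ge_atTop (i + 1)] with m hm hm2
      rw [Finset.insert_subset_iff]
      exact ⟨hVmono hm2 (hxV i), hm⟩
  have hbound : ∀ᶠ m : ℕ in atTop,
      |f y - f z| ≤ (1 - 1 / ((m : ℝ) + 1)) ^ ((m + 1) ^ 2) * (2 * C) := by
    filter_upwards [hfin y, hfin z] with m hy hz
    apply hkey
    intro h hh
    rw [Set.powersetCard.coe_smul, Set.powersetCard.coe_smul, hV]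
    constructor
    · intro a ha
      obtain ⟨b, hb, rfl⟩ := mem_smul_finset.1 ha
      exact smul_mem_smul hh (mem_insert_of_mem (hy hb))
    · intro a ha
      obtain ⟨b, hb, rfl⟩ := mem_smul_finset.1 ha
      exact smul_mem_smul hh (mem_insert_of_mem (hz hb))
  have hlim : Tendsto (fun m : ℕ => (1 - 1 / ((m : ℝ) + 1)) ^ ((m + 1) ^ 2) * (2 * C)) atTop
      (𝓝 0) := by
    have h1 : Tendsto (fun m : ℕ => Real.exp (-1) ^ (m + 1) * (2 * C)) atTop (𝓝 0) := by
      have h2 : Tendsto (fun m : ℕ => Real.exp (-1) ^ (m + 1)) atTop (𝓝 0) := by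
        apply (tendsto_pow_atTop_nhds_zero_of_lt_one (Real.exp_pos _).le ?_).comp
          (tendsto_add_atTop_nat 1)
        rw [Real.exp_lt_one_iff]; norm_num
      simpa using h2.mul_const (2 * C)
    refine squeeze_zero ?_ ?_ h1
    · intro m
      have : 0 ≤ 1 - 1 / ((m : ℝ) + 1) := by
        rw [sub_nonneg, div_le_one (by positivity)]
        have : (0:ℝ) ≤ m := Nat.cast_nonneg m
        linarith
      positivity
    · intro m
      have hm : (0:ℝ) < (m : ℝ) + 1 := by positivity
      have h0 : 0 ≤ 1 - 1 / ((m : ℝ) + 1) := by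
        rw [sub_nonneg, div_le_one hm]
        have : (0:ℝ) ≤ m := Nat.cast_nonneg m
        linarith
      have h2 : 1 - 1 / ((m : ℝ) + 1) ≤ Real.exp (-(1 / ((m : ℝ) + 1))) :=
        Real.one_sub_le_exp_neg _
      have h3 : (1 - 1 / ((m : ℝ) + 1)) ^ (m + 1) ≤ Real.exp (-1) := by
        calc (1 - 1 / ((m : ℝ) + 1)) ^ (m + 1) ≤ Real.exp (-(1 / ((m : ℝ) + 1))) ^ (m + 1) :=
              pow_le_pow_left₀ h0 h2 _
          _ = Real.exp (-1) := by
              rw [← Real.exp_nat_mul]
              congr 1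
              push_cast
              field_simp
      have h4 : (1 - 1 / ((m : ℝ) + 1)) ^ ((m + 1) ^ 2) ≤ Real.exp (-1) ^ (m + 1) := by
        rw [sq, pow_mul]
        exact pow_le_pow_left₀ (pow_nonneg h0 _) h3 _
      exact mul_le_mul_of_nonneg_right h4 (by positivity)
  have := ge_of_tendsto hlim hbound
  have h0 : |f y - f z| = 0 := le_antisymm this (abs_nonneg _)
  linarith [abs_eq_zero.1 h0]

end Main

end Pool.Agent.Q92.HT
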