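import Pool.Agent.Q92.HT.Defs

/-!
The free group of rank two is not amenable; amenability passes to quotients.
-/

set_option autoImplicit false

namespace Pool.Agent.Q92.HT

/-- the free group of rank two -/
abbrev F2 : Type := FreeGroup (Fin 2)

/-- The words starting with the letter `l`. -/
def St (l : Fin 2 × Bool) : Set F2 := {w | w.toWord.head? = some l}

lemma mem_St_of_not {w : F2} {i : Fin 2} {b : Bool} (h : w ∉ St (i, b)) :
    FreeGroup.mk [(i, !b)] * w ∈ St (i, !b) := by
  show (FreeGroup.mk [(i, !b)] * w).toWord.head? = some (i, !b)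
  have h1 : FreeGroup.mk [(i, !b)] * w = FreeGroup.mk ((i, !b) :: w.toWord) := by
    conv_lhs => rw [← FreeGroup.mk_toWord (x := w)]
    rw [FreeGroup.mul_mk]
    rfl
  rw [h1, FreeGroup.toWord_mk, FreeGroup.reduce.cons, FreeGroup.reduce_toWord]
  have h2 : w.toWord.head? ≠ some (i, b) := h
  cases hw : w.toWord with
  | nil => simp
  | cons hd tl =>
    rw [hw] at h2
    simp only [List.head?_cons, ne_eq, Option.some.injEq] at h2
    have h3 : ¬ ((i, !b).1 = hd.1 ∧ (i, !b).2 = !hd.2) := by
      rintro ⟨h4, h5⟩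
      apply h2
      have h6 : b = hd.2 := by simpa using h5
      exact Prod.ext h4.symm h6.symm
    simp only [h3, if_false, List.head?_cons]

lemma not_amenable_F2 : ¬ IsAmenable F2 := by
  rintro ⟨m, hm0, hm1, hadd, hinv⟩
  have hmono : ∀ A B : Set F2, A ⊆ B → m A ≤ m B := by
    intro A B hAB
    have h1 := hadd A (B \ A) Set.disjoint_sdiff_right
    rw [Set.union_sdiff_cancel hAB] at h1
    rw [h1]
    linarith [hm0 (B \ A)]
  have hsub : ∀ A B : Set F2, m (A ∪ B) ≤ m A + m B := by
    intro A B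
    have h1 := hadd A (B \ A) Set.disjoint_sdiff_right
    rw [Set.union_sdiff_self] at h1
    rw [h1]
    linarith [hmono (B \ A) B Set.sdiff_subset]
  have hcover : ∀ i : Fin 2, 1 ≤ m (St (i, true)) + m (St (i, false)) := by
    intro i
    have h1 : (Set.univ : Set F2) ⊆
        St (i, true) ∪ ((fun x => (FreeGroup.mk [(i, !true)] : F2)⁻¹ * x) '' St (i, false)) := by
      intro w _
      by_cases hw : w ∈ St (i, true)
      · exact Or.inl hw
      · exact Or.inr ⟨_, mem_St_of_not hw, inv_mul_cancel_left _ _⟩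
    calc (1:ℝ) = m Set.univ := hm1.symm
      _ ≤ _ := hmono _ _ h1
      _ ≤ _ := hsub _ _
      _ = _ := by rw [hinv]
  have hdisj : ∀ l l' : Fin 2 × Bool, l ≠ l' → Disjoint (St l) (St l') := by
    intro l l' hl
    rw [Set.disjoint_left]
    intro w hw hw'
    apply hl
    have h1 : w.toWord.head? = some l := hw
    have h2 : w.toWord.head? = some l' := hw'
    rw [h1] at h2
    exact Option.some.inj h2
  have h1 := hadd (St (0, true)) (St (0, false)) (hdisj _ _ (by decide))
  have h2 := hadd (St (1, true)) (St (1, false)) (hdisj _ _ (by decide))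
  have h3 := hadd (St (0, true) ∪ St (0, false)) (St (1, true) ∪ St (1, false)) (by
    rw [Set.disjoint_union_left, Set.disjoint_union_right, Set.disjoint_union_right]
    exact ⟨⟨hdisj _ _ (by decide), hdisj _ _ (by decide)⟩,
      ⟨hdisj _ _ (by decide), hdisj _ _ (by decide)⟩⟩)
  have h4 := hmono _ _ (Set.subset_univ
    ((St (0, true) ∪ St (0, false)) ∪ (St (1, true) ∪ St (1, false))))
  have h5 := hcover 0
  have h6 := hcover 1
  rw [hm1] at h4
  linarith

lemma isAmenable_of_surjective {G H : Type*} [Group G] [Group H] (π : G →* H)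
    (hπ : Function.Surjective π) (hG : IsAmenable G) : IsAmenable H := by
  obtain ⟨m, hm0, hm1, hadd, hinv⟩ := hG
  refine ⟨fun A => m (π ⁻¹' A), fun A => hm0 _, ?_, ?_, ?_⟩
  · simpa using hm1
  · intro A B hAB
    have := hadd (π ⁻¹' A) (π ⁻¹' B) (hAB.preimage _)
    rwa [← Set.preimage_union] at this
  · intro h A
    obtain ⟨g, rfl⟩ := hπ h
    have : π ⁻¹' ((fun x => π g * x) '' A) = (fun x => g * x) '' (π ⁻¹' A) := by
      ext x
      constructor
      · rintro ⟨y, hy, hyx⟩
        refine ⟨g⁻¹ * x, ?_, mul_inv_cancel_left _ _⟩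
        show π (g⁻¹ * x) ∈ A
        rw [map_mul, map_inv, ← hyx]
        simpa using hy
      · rintro ⟨y, hy, rfl⟩
        exact ⟨π y, hy, (map_mul _ _ _).symm⟩
    show m (π ⁻¹' ((fun x => π g * x) '' A)) = m (π ⁻¹' A)
    rw [this, hinv]

end Pool.Agent.Q92.HT
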