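import Pool.Agent.Q92.HT.Defs
import Mathlib.Algebra.BigOperators.Field

/-!
The uniform measures on injections.
-/

set_option autoImplicit false

open scoped Pointwise
open Finset

namespace Pool.Agent.Q92.HT

variable {G : Type*} [Group G] {X : Type*} [DecidableEq X] [MulAction G X]

omit [DecidableEq X] in
/-- a permutation of a finite set moving one subset to another one of the same size -/
lemma exists_perm {W : Finset X} {E E' : Finset X} (hE : E ⊆ W) (hE' : E' ⊆ W)
    (hc : E.card = E'.card) : ∃ σ : Equiv.Perm W, ∀ x : W, (x : X) ∈ E ↔ ((σ x : W) : X) ∈ E' := by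
  classical
  have e : {x : W // (x : X) ∈ E} ≃ {x : X // x ∈ E} :=
    Equiv.subtypeSubtypeEquivSubtype (fun h => hE h)
  have e' : {x : W // (x : X) ∈ E'} ≃ {x : X // x ∈ E'} :=
    Equiv.subtypeSubtypeEquivSubtype (fun h => hE' h)
  have h1 : Fintype.card {x : W // (x : X) ∈ E} = Fintype.card {x : W // (x : X) ∈ E'} := by
    rw [Fintype.card_congr e, Fintype.card_congr e', Fintype.card_coe, Fintype.card_coe, hc]
  let ε := Fintype.equivOfCardEq h1
  refine ⟨ε.extendSubtype, fun x => ?_⟩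
  by_cases hx : (x : X) ∈ E
  · exact iff_of_true hx (ε.extendSubtype_mem x hx)
  · exact iff_of_false hx (ε.extendSubtype_not_mem x hx)

/-- The uniform measure on a set of elements realising all injections `W → W ∪ g W` once. -/
lemma exists_unif (hT : IsHighlyTransitive G X) (W : Finset X) (g : G) :
    ∃ (S : Finset G) (w : G → ℝ), (∀ h, 0 ≤ w h) ∧ (∀ h, h ∉ S → w h = 0) ∧
      ∑ h ∈ S, w h = 1 ∧ 0 < w g ∧
      ∀ (n : ℕ) (f : Set.powersetCard X n → ℝ) (E E' : Set.powersetCard X n),
        (E : Finset X) ⊆ W → (E' : Finset X) ⊆ W →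
        ∑ h ∈ S, w h * f (h • E) = ∑ h ∈ S, w h * f (h • E') := by
  classical
  let B : Finset X := W ∪ g • W
  have hj : ∀ x : W, g • (x : X) ∈ B := fun x =>
    mem_union_right _ (smul_mem_smul_finset x.2)
  let j0 : W ↪ B := ⟨fun x => ⟨g • (x : X), hj x⟩, fun x y hxy => by
    have := congrArg Subtype.val hxy
    exact Subtype.ext (smul_left_cancel g this)⟩
  have hch : ∀ j : W ↪ B, ∃ h : G, (∀ x : W, h • (x : X) = ((j x : B) : X)) ∧ (j = j0 → h = g) := by
    intro j
    by_cases hjj : j = j0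
    · exact ⟨g, fun x => by rw [hjj]; rfl, fun _ => rfl⟩
    · obtain ⟨h, hh⟩ := hT W (j.trans (Function.Embedding.subtype _))
      exact ⟨h, fun x => hh x, fun h => absurd h hjj⟩
  choose ch hch1 hch2 using hch
  let J : Finset (W ↪ B) := univ
  have hJ : 0 < (J.card : ℝ) := by
    have : J.Nonempty := ⟨j0, mem_univ _⟩
    exact_mod_cast this.card_pos
  let w : G → ℝ := fun h => ((J.filter fun j => ch j = h).card : ℝ) / J.card
  have hsum : ∀ F : G → ℝ, ∑ h ∈ J.image ch, w h * F h = (∑ j ∈ J, F (ch j)) / J.card := by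
    intro F
    rw [Finset.sum_comp F ch, Finset.sum_div]
    apply Finset.sum_congr rfl
    intro h _
    rw [nsmul_eq_mul]
    ring
  refine ⟨J.image ch, w, fun h => by positivity, ?_, ?_, ?_, ?_⟩
  · intro h hh
    show ((J.filter fun j => ch j = h).card : ℝ) / J.card = 0
    rw [Finset.filter_eq_empty_iff.2, Finset.card_empty, Nat.cast_zero, zero_div]
    intro j hj hjh
    exact hh (mem_image.2 ⟨j, hj, hjh⟩)
  · have := hsum (fun _ => 1)
    simp only [mul_one, sum_const, nsmul_eq_mul] at this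
    rw [this, div_self hJ.ne']
  · apply div_pos _ hJ
    have : (J.filter fun j => ch j = g).Nonempty := ⟨j0, mem_filter.2 ⟨mem_univ _, hch2 j0 rfl⟩⟩
    exact_mod_cast this.card_pos
  · intro n f E E' hE hE'
    rw [hsum (fun h => f (h • E)), hsum (fun h => f (h • E'))]
    congr 1
    have hcard : (E : Finset X).card = (E' : Finset X).card := by
      rw [Set.powersetCard.card_eq, Set.powersetCard.card_eq]
    obtain ⟨σ, hσ⟩ := exists_perm hE hE' hcard
    let Φ : (W ↪ B) ≃ (W ↪ B) := Equiv.embeddingCongr σ.symm (Equiv.refl B)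
    have hΦ : ∀ (j : W ↪ B) (x : W), (Φ j) x = j (σ x) := by
      intro j x
      simp [Φ, Equiv.embeddingCongr]
    rw [← Equiv.sum_comp Φ (fun j => f (ch j • E))]
    apply Finset.sum_congr rfl
    intro j _
    congr 1
    apply Subtype.ext
    rw [Set.powersetCard.coe_smul, Set.powersetCard.coe_smul]
    ext y
    rw [mem_smul_finset, mem_smul_finset]
    constructor
    · rintro ⟨x, hx, rfl⟩
      have hxW := hE hx
      refine ⟨(σ ⟨x, hxW⟩ : W), (hσ ⟨x, hxW⟩).1 hx, ?_⟩
      have h1 := hch1 (Φ j) ⟨x, hxW⟩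
      have h2 := hch1 j (σ ⟨x, hxW⟩)
      rw [hΦ] at h1
      rw [h2, ← h1]
    · rintro ⟨x', hx', rfl⟩
      have hxW := hE' hx'
      set x : W := σ.symm ⟨x', hxW⟩ with hxdef
      have hσx : σ x = ⟨x', hxW⟩ := by rw [hxdef, Equiv.apply_symm_apply]
      refine ⟨x, (hσ x).2 (by rw [hσx]; exact hx'), ?_⟩
      have h1 := hch1 (Φ j) x
      have h2 := hch1 j ⟨x', hxW⟩
      rw [hΦ, hσx] at h1
      rw [h1, ← h2]

end Pool.Agent.Q92.HT
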